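import Pool.Agent.H273Z.AP.Main

set_option autoImplicit false

namespace Pool.Agent.Results.MP_6bff71_co.BeatRandom

open Pool.Agent.H273Z.AP

/-- For all `k ≥ 3` and `r ≥ 2` there are `δ` below the random rate and `r`-colourings `χ n` of
`[n]` with `δ n ^ 2 + O(n)` monochromatic `k`-term arithmetic progressions. -/
theorem result : ∀ k r : ℕ, 3 ≤ k → 2 ≤ r →
    ∃ δ : ℝ, δ < 1 / (2 * ((k : ℝ) - 1) * (r : ℝ) ^ (k - 1)) ∧
      ∃ (χ : ℕ → ℕ → Fin r) (C : ℝ), ∀ n : ℕ,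
        |(monoCount k n (χ n) : ℝ) - δ * (n : ℝ) ^ 2| ≤ C * n :=
  fun _ _ hk hr => main hk hr

end Pool.Agent.Results.MP_6bff71_co.BeatRandom
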